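import Pool.Agent.E8helper90.RM.Op

/-!
The linear system which is satisfied by the products of the solutions and the entries of the
inverse of the Wronskian matrix.
-/

set_option autoImplicit false

namespace Pool.Agent.E8helper90.RM

open Finset
open Pool.Agent.W603.LV (wm wr wr_change)

variable {k K : Type} [Field k] [Field K] [Algebra k K] {D : Derivation k K K}

/-- the companion matrix -/
def cmp {n : ℕ} (a : Fin n → K) : Matrix (Fin n) (Fin n) K :=
  Matrix.of fun m i => if (i : ℕ) + 1 < n then (if (m : ℕ) = i + 1 then 1 else 0) else a m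

theorem tw_tm {n : ℕ} {σ : K} {y a : Fin n → K}
    (ha : ∀ j, (tw D σ)^[n] (y j) = ∑ i : Fin n, a i * (tw D σ)^[(i : ℕ)] (y j))
    (j i : Fin n) : tw D σ (tm D σ y j i) = ∑ m, cmp a m i * tm D σ y j m := by
  change tw D σ ((tw D σ)^[(i : ℕ)] (y j)) = _
  rw [← Function.iterate_succ_apply' (f := tw D σ)]
  by_cases h : (i : ℕ) + 1 < n
  · have h1 : ∀ m, cmp a m i * tm D σ y j m =
        if m = (⟨i + 1, h⟩ : Fin n) then tm D σ y j ⟨i + 1, h⟩ else 0 := by
      intro m
      change (if (i : ℕ) + 1 < n then (if (m : ℕ) = i + 1 then (1 : K) else 0) else a m) * _ = _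
      rw [if_pos h]
      by_cases h2 : (m : ℕ) = i + 1
      · rw [if_pos h2, if_pos (Fin.ext h2), one_mul]
        congr 1
        exact Fin.ext h2
      · rw [if_neg h2, if_neg fun h3 => h2 (congrArg Fin.val h3), zero_mul]
    rw [sum_congr rfl fun m _ => h1 m, sum_ite_eq' univ, if_pos (mem_univ _)]
    rfl
  · have h1 : (i : ℕ) + 1 = n := by have := i.2; omega
    have h2 : ∀ m, cmp a m i = a m := by
      intro m
      change (if (i : ℕ) + 1 < n then (if (m : ℕ) = i + 1 then (1 : K) else 0) else a m) = _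
      rw [if_neg h]
    simp only [h2]
    rw [Nat.succ_eq_add_one, h1, ha j]
    rfl

theorem D_tm {n : ℕ} {σ : K} {y a : Fin n → K}
    (ha : ∀ j, (tw D σ)^[n] (y j) = ∑ i : Fin n, a i * (tw D σ)^[(i : ℕ)] (y j))
    (j i : Fin n) :
    D (tm D σ y j i) = (tm D σ y * cmp a) j i - σ * tm D σ y j i := by
  have h1 := tw_tm ha j i
  rw [Matrix.mul_apply, sum_congr rfl fun m _ => mul_comm (tm D σ y j m) (cmp a m i), ← h1]
  unfold tw
  ring

theorem D_inv {n : ℕ} {σ : K} {y a : Fin n → K} (hw : wr D y ≠ 0)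
    (ha : ∀ j, (tw D σ)^[n] (y j) = ∑ i : Fin n, a i * (tw D σ)^[(i : ℕ)] (y j))
    (l m : Fin n) :
    D ((tm D σ y)⁻¹ l m) = -(cmp a * (tm D σ y)⁻¹) l m + σ * (tm D σ y)⁻¹ l m := by
  obtain ⟨Ψ, hΨ⟩ : ∃ Ψ, Ψ = tm D σ y := ⟨_, rfl⟩
  obtain ⟨C, hC⟩ : ∃ C, C = Ψ⁻¹ := ⟨_, rfl⟩
  have hdet : IsUnit Ψ.det := by
    rw [hΨ, det_tm]
    exact isUnit_iff_ne_zero.2 hw
  have h1 : C * Ψ = 1 := by rw [hC]; exact Matrix.nonsing_inv_mul _ hdet
  have h2 : Ψ * C = 1 := by rw [hC]; exact Matrix.mul_nonsing_inv _ hdet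
  have hDΨ : Ψ.map D = Ψ * cmp a - σ • Ψ := by
    ext j i
    rw [Matrix.map_apply, Matrix.sub_apply, Matrix.smul_apply, smul_eq_mul, hΨ, D_tm ha]
  have h3 : C.map D * Ψ + C * Ψ.map D = 0 := by
    ext l i
    rw [Matrix.add_apply, Matrix.mul_apply, Matrix.mul_apply, ← sum_add_distrib,
      Matrix.zero_apply]
    have e1 := congrFun (congrFun h1 l) i
    rw [Matrix.mul_apply] at e1
    have e2 := congrArg D e1
    rw [map_sum] at e2
    have e3 : D ((1 : Matrix (Fin n) (Fin n) K) l i) = 0 := by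
      rw [Matrix.one_apply]
      split_ifs
      · exact D.map_one_eq_zero
      · exact map_zero D
    rw [e3] at e2
    rw [← e2]
    refine sum_congr rfl fun m _ => ?_
    rw [D.leibniz, smul_eq_mul, smul_eq_mul, Matrix.map_apply, Matrix.map_apply]
    ring
  have h4 : C.map D = -(cmp a * C) + σ • C := by
    have e1 : C.map D * Ψ = -(C * Ψ.map D) := eq_neg_of_add_eq_zero_left h3
    have e2 : C.map D = C.map D * Ψ * C := by
      rw [Matrix.mul_assoc, h2, Matrix.mul_one]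
    rw [e2, e1, hDΨ, Matrix.mul_sub, ← Matrix.mul_assoc, h1, Matrix.one_mul,
      Matrix.mul_smul, h1, Matrix.neg_mul, Matrix.sub_mul, Matrix.smul_mul, Matrix.one_mul,
      neg_sub, sub_eq_neg_add]
  have h5 := congrFun (congrFun h4 l) m
  rw [Matrix.map_apply, Matrix.add_apply, Matrix.neg_apply, Matrix.smul_apply,
    smul_eq_mul] at h5
  rw [← hΨ, ← hC, h5]

/-- the products -/
noncomputable def zz {n : ℕ} (D : Derivation k K K) (σ : K) (y : Fin n → K) (j m : Fin n)
    (q : Fin n × Fin n) : K :=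
  tm D σ y j q.1 * (tm D σ y)⁻¹ q.2 m

theorem D_zz {n : ℕ} {σ : K} {y a : Fin n → K} (hw : wr D y ≠ 0)
    (ha : ∀ j, (tw D σ)^[n] (y j) = ∑ i : Fin n, a i * (tw D σ)^[(i : ℕ)] (y j))
    (j m : Fin n) (q : Fin n × Fin n) :
    D (zz D σ y j m q) = ∑ q' : Fin n × Fin n,
      ((if q'.2 = q.2 then cmp a q'.1 q.1 else 0) - if q'.1 = q.1 then cmp a q.2 q'.2 else 0) *
        zz D σ y j m q' := by
  obtain ⟨i, l⟩ := q
  have h1 : D (zz D σ y j m (i, l)) = (tm D σ y * cmp a) j i * (tm D σ y)⁻¹ l m -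
      tm D σ y j i * (cmp a * (tm D σ y)⁻¹) l m := by
    unfold zz
    rw [D.leibniz, smul_eq_mul, smul_eq_mul, D_tm ha, D_inv hw ha]
    ring
  rw [h1]
  simp only [sub_mul, sum_sub_distrib]
  congr 1
  · rw [Fintype.sum_prod_type, Matrix.mul_apply, sum_mul]
    refine sum_congr rfl fun i' _ => ?_
    rw [sum_eq_single l]
    · rw [if_pos rfl]
      unfold zz
      ring
    · intro l' _ hl'
      rw [if_neg hl', zero_mul]
    · intro h
      exact absurd (mem_univ l) h
  · rw [Fintype.sum_prod_type, sum_eq_single i]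
    · rw [Matrix.mul_apply, mul_sum]
      refine sum_congr rfl fun l' _ => ?_
      rw [if_pos rfl]
      unfold zz
      ring
    · intro i' _ hi'
      refine sum_eq_zero fun l' _ => ?_
      rw [if_neg hi', zero_mul]
    · intro h
      exact absurd (mem_univ i) h

theorem exists_inv_ne {n : ℕ} (hn : 0 < n) {σ : K} {y : Fin n → K} (hw : wr D y ≠ 0) :
    ∃ l m : Fin n, (tm D σ y)⁻¹ l m ≠ 0 := by
  by_contra hcon
  push Not at hcon
  have hdet : IsUnit (tm D σ y).det := by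
    rw [det_tm]
    exact isUnit_iff_ne_zero.2 hw
  have h1 := Matrix.nonsing_inv_mul _ hdet
  have h2 := congrFun (congrFun h1 ⟨0, hn⟩) ⟨0, hn⟩
  rw [Matrix.mul_apply, Matrix.one_apply_eq] at h2
  simp only [hcon, zero_mul, sum_const_zero] at h2
  exact zero_ne_one h2

end Pool.Agent.E8helper90.RM
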