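import Mathlib
import Pool.Agent.W603.LV.Wr

/-!
Linear differential operators with coefficients in a filtered ring.
-/

set_option autoImplicit false

namespace Pool.Agent.E8helper90.RM

open Finset
open Pool.Agent.W603.LV (wm wr wr_change)

variable {k K : Type} [Field k] [Field K] [Algebra k K] (D : Derivation k K K)

/-- the twisted derivative -/
def tw (σ x : K) : K := D x + σ * x

variable {D}

theorem tw_add (σ x y : K) : tw D σ (x + y) = tw D σ x + tw D σ y := by
  unfold tw
  rw [map_add]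
  ring

theorem tw_zero (σ : K) : tw D σ 0 = 0 := by
  unfold tw
  rw [map_zero, mul_zero, add_zero]

theorem tw_sum (σ : K) {ι : Type} (s : Finset ι) (x : ι → K) :
    tw D σ (∑ i ∈ s, x i) = ∑ i ∈ s, tw D σ (x i) := by
  classical
  induction s using Finset.induction_on with
  | empty => simp [tw_zero]
  | insert a s ha ih => rw [sum_insert ha, sum_insert ha, tw_add, ih]

theorem tw_mul (σ p x : K) : tw D σ (p * x) = p * tw D σ x + D p * x := by
  unfold tw
  rw [D.leibniz, smul_eq_mul, smul_eq_mul]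
  ring

theorem tw_smul {σ u x : K} (hu : u ≠ 0) : tw D (σ - D u / u) (u * x) = u * tw D σ x := by
  unfold tw
  rw [D.leibniz, smul_eq_mul, smul_eq_mul]
  field_simp
  ring

theorem tw_iter_smul {σ u x : K} (hu : u ≠ 0) (i : ℕ) :
    (tw D (σ - D u / u))^[i] (u * x) = u * (tw D σ)^[i] x := by
  induction i with
  | zero => rfl
  | succ i ih =>
    rw [Function.iterate_succ_apply', ih, tw_smul hu, Function.iterate_succ_apply']

variable (D) in
/-- a filtration which is compatible with the derivation -/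
structure Filt where
  /-- the steps of the filtration -/
  P : ℕ → AddSubgroup K
  mul : ∀ {m l : ℕ} {a b : K}, a ∈ P m → b ∈ P l → a * b ∈ P (m + l)
  der : ∀ {m : ℕ} {a : K}, a ∈ P m → D a ∈ P (m + 1)

/-- a monic operator of the order `n` with coefficients in the filtration -/
def IsOp (F : Filt D) (σ : K) (n : ℕ) (T : K → K) : Prop :=
  ∃ p : ℕ → K, (∀ i < n, p i ∈ F.P (n - i)) ∧
    ∀ x, T x = (tw D σ)^[n] x + ∑ i ∈ range n, p i * (tw D σ)^[i] x

theorem isOp_id (F : Filt D) (σ : K) : IsOp F σ 0 fun x => x :=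
  ⟨fun _ => 0, fun i hi => absurd hi (Nat.not_lt_zero i), fun x => by simp⟩

theorem isOp_step {F : Filt D} {σ : K} {n : ℕ} {T : K → K} (hT : IsOp F σ n T) {c : K}
    (hc : c ∈ F.P 1) : IsOp F σ (n + 1) fun x => tw D σ (T x) - c * T x := by
  obtain ⟨p, hp, hTp⟩ := hT
  let q : ℕ → K := fun i => (if i = 0 then 0 else p (i - 1)) +
    (if i < n then D (p i) - c * p i else -c)
  refine ⟨q, fun i hi => ?_, fun x => ?_⟩
  · refine (F.P _).add_mem ?_ ?_
    · by_cases h0 : i = 0
      · rw [if_pos h0]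
        exact (F.P _).zero_mem
      · rw [if_neg h0]
        have h1 := hp (i - 1) (by omega)
        have e : n - (i - 1) = n + 1 - i := by omega
        rwa [e] at h1
    · by_cases h0 : i < n
      · rw [if_pos h0]
        have e : n + 1 - i = n - i + 1 := by omega
        rw [e]
        refine (F.P _).sub_mem (F.der (hp i h0)) ?_
        have h1 := F.mul hc (hp i h0)
        rwa [add_comm] at h1
      · rw [if_neg h0]
        have e : n + 1 - i = 1 := by omega
        rw [e]
        exact (F.P _).neg_mem hc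
  · have h1 : tw D σ (T x) = (tw D σ)^[n + 1] x + (∑ i ∈ range n, p i * (tw D σ)^[i + 1] x +
        ∑ i ∈ range n, D (p i) * (tw D σ)^[i] x) := by
      rw [hTp x, tw_add, tw_sum, ← Function.iterate_succ_apply' (f := tw D σ),
        ← sum_add_distrib]
      congr 1
      refine sum_congr rfl fun i _ => ?_
      rw [tw_mul, ← Function.iterate_succ_apply' (f := tw D σ)]
    have h2 : ∑ i ∈ range (n + 1), (if i = 0 then 0 else p (i - 1)) * (tw D σ)^[i] x =
        ∑ i ∈ range n, p i * (tw D σ)^[i + 1] x := by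
      rw [sum_range_succ']
      simp
    have h3 : ∑ i ∈ range (n + 1), (if i < n then D (p i) - c * p i else -c) *
        (tw D σ)^[i] x = ∑ i ∈ range n, (D (p i) - c * p i) * (tw D σ)^[i] x -
          c * (tw D σ)^[n] x := by
      rw [sum_range_succ, if_neg (lt_irrefl n)]
      rw [sum_congr rfl fun i hi => by rw [if_pos (mem_range.1 hi)]]
      ring
    have h4 : ∑ i ∈ range (n + 1), q i * (tw D σ)^[i] x =
        ∑ i ∈ range n, p i * (tw D σ)^[i + 1] x +
          (∑ i ∈ range n, (D (p i) - c * p i) * (tw D σ)^[i] x - c * (tw D σ)^[n] x) := by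
      rw [← h2, ← h3, ← sum_add_distrib]
      refine sum_congr rfl fun i _ => ?_
      rw [← add_mul]
    change tw D σ (T x) - c * T x = _
    rw [h4, h1, hTp x]
    simp only [sub_mul, sum_sub_distrib, mul_add, mul_sum, mul_assoc]
    ring

/-- the product of first order operators which kills the elements `y 0, …, y (n - 1)` -/
noncomputable def fac (D : Derivation k K K) (y : ℕ → K) : ℕ → K → K
  | 0 => fun x => x
  | n + 1 => fun x => D (fac D y n x) - D (fac D y n (y n)) / fac D y n (y n) * fac D y n x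

theorem fac_zero (y : ℕ → K) : ∀ n, fac D y n 0 = 0
  | 0 => rfl
  | n + 1 => by
    change D (fac D y n 0) - _ * fac D y n 0 = 0
    rw [fac_zero y n, map_zero, mul_zero, sub_zero]

theorem fac_kill (y : ℕ → K) : ∀ (n j : ℕ), j < n → fac D y n (y j) = 0
  | 0, j, h => absurd h (Nat.not_lt_zero j)
  | n + 1, j, h => by
    change D (fac D y n (y j)) - D (fac D y n (y n)) / fac D y n (y n) * fac D y n (y j) = 0
    rcases Nat.lt_succ_iff_lt_or_eq.1 h with h1 | h1
    · rw [fac_kill y n j h1, map_zero, mul_zero, sub_zero]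
    · rw [h1]
      by_cases h0 : fac D y n (y n) = 0
      · rw [h0, map_zero, mul_zero, sub_zero]
      · rw [div_mul_cancel₀ _ h0, sub_self]

theorem fac_mem {F : Subfield K} (hD : ∀ x ∈ F, D x ∈ F) {y : ℕ → K} (hy : ∀ j, y j ∈ F) :
    ∀ (n : ℕ) (x : K), x ∈ F → fac D y n x ∈ F
  | 0, x, hx => hx
  | n + 1, x, hx => by
    have h1 := fac_mem hD hy n x hx
    have h2 := fac_mem hD hy n (y n) (hy n)
    exact F.sub_mem (hD _ h1) (F.mul_mem (F.div_mem (hD _ h2) h2) h1)

theorem fac_isOp {Φ : Filt D} {F : Subfield K} (hD : ∀ x ∈ F, D x ∈ F)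
    (hlog : ∀ x ∈ F, D x / x ∈ Φ.P 1) {y : ℕ → K} (hy : ∀ j, y j ∈ F) {σ : K} (hσ : σ ∈ Φ.P 1) :
    ∀ n : ℕ, IsOp Φ σ n (fac D y n)
  | 0 => isOp_id Φ σ
  | n + 1 => by
    have h1 := isOp_step (fac_isOp hD hlog hy hσ n)
      ((Φ.P 1).add_mem (hlog _ (fac_mem hD hy n (y n) (hy n))) hσ)
    have h2 : fac D y (n + 1) = fun x => tw D σ (fac D y n x) -
        (D (fac D y n (y n)) / fac D y n (y n) + σ) * fac D y n x := by
      funext x
      change D (fac D y n x) - D (fac D y n (y n)) / fac D y n (y n) * fac D y n x = _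
      unfold tw
      ring
    rw [h2]
    exact h1

/-- the differential equation -/
theorem exists_eq {Φ : Filt D} {F : Subfield K} (hD : ∀ x ∈ F, D x ∈ F)
    (hlog : ∀ x ∈ F, D x / x ∈ Φ.P 1) {n : ℕ} {y : Fin n → K} (hy : ∀ j, y j ∈ F) {σ : K}
    (hσ : σ ∈ Φ.P 1) : ∃ a : Fin n → K, (∀ i : Fin n, a i ∈ Φ.P (n - i)) ∧
      ∀ j, (tw D σ)^[n] (y j) = ∑ i : Fin n, a i * (tw D σ)^[(i : ℕ)] (y j) := by
  let y' : ℕ → K := fun j => if h : j < n then y ⟨j, h⟩ else 0
  have hy' : ∀ j, y' j ∈ F := by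
    intro j
    by_cases h : j < n
    · simp only [y', dif_pos h]
      exact hy _
    · simp only [y', dif_neg h]
      exact F.zero_mem
  obtain ⟨p, hp, hT⟩ := fac_isOp hD hlog hy' hσ n
  refine ⟨fun i => -p i, fun i => (Φ.P _).neg_mem (hp i i.2), fun j => ?_⟩
  have h1 := hT (y' j)
  rw [fac_kill y' n j j.2] at h1
  have h2 : y' j = y j := by simp only [y', dif_pos j.2]
  rw [h2, sum_range fun i => p i * (tw D σ)^[i] (y j)] at h1
  simp only [neg_mul, sum_neg_distrib]
  linear_combination -h1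

/-- the coefficients of the powers of the twisted derivative -/
noncomputable def tk (D : Derivation k K K) (σ : K) : ℕ → ℕ → K
  | 0, 0 => 1
  | 0, _ + 1 => 0
  | r + 1, 0 => D (tk D σ r 0) + σ * tk D σ r 0
  | r + 1, i + 1 => D (tk D σ r (i + 1)) + σ * tk D σ r (i + 1) + tk D σ r i

theorem tk_zero (σ : K) (r : ℕ) : ∀ i, r < i → tk D σ r i = 0 := by
  induction r with
  | zero =>
    intro i hi
    obtain ⟨j, rfl⟩ : ∃ j, i = j + 1 := ⟨i - 1, by omega⟩
    rfl
  | succ r ih =>
    intro i hi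
    obtain ⟨j, rfl⟩ : ∃ j, i = j + 1 := ⟨i - 1, by omega⟩
    change D (tk D σ r (j + 1)) + σ * tk D σ r (j + 1) + tk D σ r j = 0
    rw [ih _ (by omega), ih _ (by omega)]
    simp

theorem tk_diag (σ : K) (r : ℕ) : tk D σ r r = 1 := by
  induction r with
  | zero => rfl
  | succ r ih =>
    change D (tk D σ r (r + 1)) + σ * tk D σ r (r + 1) + tk D σ r r = _
    rw [tk_zero _ _ _ (by omega), ih]
    simp

theorem tk_spec (σ g : K) (m : ℕ) (r : ℕ) (hr : r < m) :
    (tw D σ)^[r] g = ∑ i ∈ range m, tk D σ r i * (⇑D)^[i] g := by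
  induction r with
  | zero =>
    rw [sum_eq_single 0]
    · change g = 1 * g
      rw [one_mul]
    · intro i _ hi
      rw [tk_zero _ _ _ (by omega)]
      simp
    · intro h
      exact absurd (mem_range.2 hr) h
  | succ r ih =>
    rw [Function.iterate_succ_apply', ih (by omega), tw_sum]
    have h1 : ∀ i ∈ range m, tw D σ (tk D σ r i * (⇑D)^[i] g) =
        (D (tk D σ r i) + σ * tk D σ r i) * (⇑D)^[i] g + tk D σ r i * (⇑D)^[i + 1] g := by
      intro i _
      rw [tw_mul, Function.iterate_succ_apply']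
      unfold tw
      ring
    rw [sum_congr rfl h1, sum_add_distrib]
    obtain ⟨q, rfl⟩ : ∃ q, m = q + 1 := ⟨m - 1, by omega⟩
    rw [sum_range_succ' (fun i => tk D σ (r + 1) i * (⇑D)^[i] g)]
    rw [sum_range_succ' (fun i => (D (tk D σ r i) + σ * tk D σ r i) * (⇑D)^[i] g)]
    rw [sum_range_succ (fun i => tk D σ r i * (⇑D)^[i + 1] g)]
    rw [tk_zero _ _ q (by omega)]
    have h2 : ∀ i, tk D σ (r + 1) (i + 1) =
        D (tk D σ r (i + 1)) + σ * tk D σ r (i + 1) + tk D σ r i := fun i => rfl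
    have h3 : tk D σ (r + 1) 0 = D (tk D σ r 0) + σ * tk D σ r 0 := rfl
    simp only [h2, h3, zero_mul, add_zero, add_mul, sum_add_distrib]
    ring

/-- the twisted Wronskian matrix -/
noncomputable def tm (D : Derivation k K K) (σ : K) {n : ℕ} (y : Fin n → K) :
    Matrix (Fin n) (Fin n) K := Matrix.of fun j i => (tw D σ)^[(i : ℕ)] (y j)

theorem det_tm (σ : K) {n : ℕ} (y : Fin n → K) : (tm D σ y).det = wr D y := by
  have h1 : tm D σ y = wm (n := n) D y * Matrix.of (fun s r : Fin n => tk D σ r s) := by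
    ext i r
    rw [Matrix.mul_apply]
    change (tw D σ)^[(r : ℕ)] (y i) = ∑ s : Fin n, (⇑D)^[(s : ℕ)] (y i) * tk D σ r s
    rw [tk_spec σ (y i) n r r.2, sum_range]
    exact sum_congr rfl fun s _ => by ring
  have h2 : (Matrix.of (fun s r : Fin n => tk D σ r s)).det = 1 := by
    rw [Matrix.det_of_isUpperTriangular]
    · exact prod_eq_one fun i _ => tk_diag σ i
    · intro s r hrs
      exact tk_zero _ _ _ hrs
  rw [h1, Matrix.det_mul, h2, mul_one]
  rfl

theorem wr_mul {n : ℕ} (u : K) (y : Fin n → K) :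
    wr D (fun j => u * y j) = u ^ n * wr D y := by
  have h1 := wr_change D 1 u y
  rw [one_smul] at h1
  rw [h1]
  simp

/-- the normalising twist -/
noncomputable def nt (D : Derivation k K K) {n : ℕ} (y : Fin n → K) : K :=
  -(n : K)⁻¹ * (D (wr D y) / wr D y)

theorem nt_mul [CharZero K] {n : ℕ} (hn : n ≠ 0) {u : K} (hu : u ≠ 0) {y : Fin n → K}
    (hy : wr D y ≠ 0) : nt D (fun j => u * y j) = nt D y - D u / u := by
  unfold nt
  rw [wr_mul]
  have h1 : D (u ^ n) / u ^ n = n * (D u / u) := by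
    rw [Derivation.leibniz_pow]
    obtain ⟨m, rfl⟩ := Nat.exists_eq_succ_of_ne_zero hn
    rw [Nat.succ_sub_one, nsmul_eq_mul, smul_eq_mul, pow_succ]
    field_simp
  have h2 : D (u ^ n * wr D y) / (u ^ n * wr D y) = D (u ^ n) / u ^ n + D (wr D y) / wr D y := by
    rw [D.leibniz, smul_eq_mul, smul_eq_mul]
    have h3 : u ^ n ≠ 0 := pow_ne_zero _ hu
    field_simp
    ring
  have hn' : (n : K) ≠ 0 := Nat.cast_ne_zero.2 hn
  rw [h2, h1]
  field_simp
  ring

end Pool.Agent.E8helper90.RM
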