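import Pool.Agent.E8helper90.RM.Loc

/-!
Every nondegenerate entire curve is given by a linear differential equation whose coefficients have
poles only at the inflection points, and small proximity functions.
-/

set_option autoImplicit false

namespace Pool.Agent.E8helper90.RM

open MeasureTheory Set Filter Topology ValueDistribution MvPolynomial MeromorphicOn
open scoped LinearAlgebra.Projectivization
open Pool.Agent.TH143.EL (HolMap InV Rep MK MJ MerS evS cl cl_eq cl_add cl_mul cl_const cl_eq_zero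
  cl_inv cl_div cl_surj MD MD_cl MDer MDer_apply mero_an mero_ne rep_smul rep_rep rep_iff
  codis_connected codis_open codis_ev mero_id)
open Pool.Agent.TH143.HE (RatCurvesIn)
open Pool.Agent.TH143.GT (Covered FunField Pluricanonical)
open Pool.Agent.E8helper90.ND
open Pool.Agent.W603.LV (wm wr)
open Pool.Agent.Y377.IL (AlgRatio DB AlgebraicAlong AlgebraicOver IteratedOver IterLin)

variable {N : ℕ}

/-- the ring of the functions without a pole at `z` -/
noncomputable def OZ (z : ℂ) : Subring MK where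
  carrier := {x | ∃ (h : ℂ → ℂ) (hh : Meromorphic h), cl h hh = x ∧ 0 ≤ meromorphicOrderAt h z}
  mul_mem' := by
    rintro _ _ ⟨f, hf, rfl, h1⟩ ⟨g, hg, rfl, h2⟩
    refine ⟨f * g, hf.mul hg, (cl_mul hf hg).symm, ?_⟩
    rw [meromorphicOrderAt_mul (hf z) (hg z)]
    exact add_nonneg h1 h2
  one_mem' := ⟨fun _ => 1, Meromorphic.const 1, by rw [cl_const, map_one],
    (analyticAt_const).meromorphicOrderAt_nonneg⟩
  add_mem' := by
    rintro _ _ ⟨f, hf, rfl, h1⟩ ⟨g, hg, rfl, h2⟩
    exact ⟨f + g, hf.add hg, (cl_add hf hg).symm,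
      (le_min h1 h2).trans (meromorphicOrderAt_add (hf z) (hg z))⟩
  zero_mem' := ⟨fun _ => 0, Meromorphic.const 0, by rw [cl_const, map_zero],
    (analyticAt_const).meromorphicOrderAt_nonneg⟩
  neg_mem' := by
    rintro _ ⟨f, hf, rfl, h1⟩
    refine ⟨-f, hf.neg, ?_, ?_⟩
    · rw [eq_neg_iff_add_eq_zero, cl_add, cl_eq_zero]
      exact Eventually.of_forall fun z => by simp
    · rw [← meromorphicOrderAt_neg]
      exact h1

theorem OZ_D {z : ℂ} {x : MK} (hx : x ∈ OZ z) : MDer x ∈ OZ z := by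
  obtain ⟨f, hf, rfl, h1⟩ := hx
  exact ⟨deriv f, hf.deriv, (MD_cl hf).symm, (ord_deriv (k := 0) hf h1).2 le_rfl⟩

theorem OZ_iff {z : ℂ} {h : ℂ → ℂ} {hh : Meromorphic h} (hx : cl h hh ∈ OZ z) :
    0 ≤ meromorphicOrderAt h z := by
  obtain ⟨f, hf, he, h1⟩ := hx
  rw [cl_eq] at he
  rwa [← meromorphicOrderAt_congr (codis_ev he z)]

theorem OZ_const (z : ℂ) (c : ℂ) : algebraMap ℂ MK c ∈ OZ z :=
  ⟨fun _ => c, Meromorphic.const c, cl_const c, (analyticAt_const).meromorphicOrderAt_nonneg⟩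

theorem cramer_mem {K : Type} [Field K] {n : ℕ} (R : Subring K) {Ψ : Matrix (Fin n) (Fin n) K}
    (hΨ : ∀ i j, Ψ i j ∈ R) (h0 : Ψ.det ≠ 0) (hd : (Ψ.det)⁻¹ ∈ R) {a b : Fin n → K}
    (hb : ∀ i, b i ∈ R) (h : Ψ.mulVec a = b) (i : Fin n) : a i ∈ R := by
  have hadj : ∀ i j, Ψ.adjugate i j ∈ R := by
    obtain ⟨Ψ', hΨ'⟩ : ∃ Ψ' : Matrix (Fin n) (Fin n) R, R.subtype.mapMatrix Ψ' = Ψ :=
      ⟨Matrix.of fun i j => ⟨Ψ i j, hΨ i j⟩, rfl⟩
    intro i j
    rw [← hΨ', ← RingHom.map_adjugate]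
    exact (Ψ'.adjugate i j).2
  have h1 : Ψ.adjugate.mulVec b = Ψ.det • a := by
    rw [← h, Matrix.mulVec_mulVec, Matrix.adjugate_mul, Matrix.smul_mulVec, Matrix.one_mulVec]
  have h2 : a i = (Ψ.det)⁻¹ * Ψ.adjugate.mulVec b i := by
    rw [h1, Pi.smul_apply, smul_eq_mul, inv_mul_cancel_left₀ h0]
  rw [h2]
  refine R.mul_mem hd ?_
  change ∑ j, Ψ.adjugate i j * b j ∈ R
  exact R.sum_mem fun j _ => R.mul_mem (hadj i j) (hb j)

/-- the coefficients have no poles outside of the inflection points -/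
theorem reg {f : ℂ → ℙ ℂ (Fin (N + 1) → ℂ)} (hf : HolMap f) (hnd : NonDeg f)
    {l0 : Fin (N + 1)} {z0 : ℂ} (hl0 : (f z0).rep l0 ≠ 0) {a : Fin (N + 1) → MK}
    (ha : ∀ j, (tw MDer (nt MDer (yv hf l0)))^[N + 1] (yv hf l0 j) =
      ∑ i : Fin (N + 1), a i * (tw MDer (nt MDer (yv hf l0)))^[(i : ℕ)] (yv hf l0 j))
    {z : ℂ} (hz : ¬ Inflection f z) (i : Fin (N + 1)) : a i ∈ OZ z := by
  obtain ⟨l, hl'⟩ := Function.ne_iff.1 (f z).rep_nonzero
  have hl : (f z).rep l ≠ 0 := hl'
  have hw0 := wr_yv_ne hf hnd hl0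
  have hw := wr_yv_ne hf hnd hl
  obtain ⟨u, hu⟩ : ∃ u, u = (yv hf l0 l)⁻¹ := ⟨_, rfl⟩
  have hc0 := rep_codis hf hl0
  have hc := rep_codis hf hl
  have hy0 : yv hf l0 l ≠ 0 := by
    intro h0
    unfold yv at h0
    rw [cl_eq_zero] at h0
    obtain ⟨w, h1, h2, h3⟩ := (h0.and (hc0.and hc)).exists
    exact div_ne_zero h3 h2 h1
  have hu0 : u ≠ 0 := by
    rw [hu]
    exact inv_ne_zero hy0
  have hyu : yv hf l = fun j => u * yv hf l0 j := by
    funext j
    rw [hu, inv_mul_eq_div, eq_div_iff hy0]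
    unfold yv
    rw [cl_mul, cl_eq]
    filter_upwards [hc0, hc] with w h1 h2
    rw [Pi.mul_apply]
    unfold rt
    field_simp
  obtain ⟨σ, hσ⟩ : ∃ σ, σ = nt MDer (yv hf l) := ⟨_, rfl⟩
  have hσ' : σ = nt MDer (yv hf l0) - MDer u / u := by
    rw [hσ, hyu]
    exact nt_mul (Nat.succ_ne_zero N) hu0 hw0
  have ha' : ∀ j, (tw MDer σ)^[N + 1] (yv hf l j) =
      ∑ i : Fin (N + 1), a i * (tw MDer σ)^[(i : ℕ)] (yv hf l j) := by
    intro j
    rw [hyu, hσ']
    simp only [tw_iter_smul hu0]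
    rw [ha j, Finset.mul_sum]
    exact Finset.sum_congr rfl fun i _ => by ring
  have hrt := rt_an hf hl
  have hyO : ∀ j, yv hf l j ∈ OZ z := fun j =>
    ⟨rt f l j, rt_mero hf l j, rfl, (hrt.1 j).meromorphicOrderAt_nonneg⟩
  obtain ⟨hwm, hwe⟩ := wr_cl hf l
  have hdet : (wz f l z).det ≠ 0 := fun h => hz ((infl_iff hf hl).2 h)
  have hwan : AnalyticAt ℂ (fun z => (wz f l z).det) z := by
    simp only [Matrix.det_apply']
    refine Finset.analyticAt_fun_sum _ fun τ _ => ?_
    refine analyticAt_const.mul (Finset.analyticAt_fun_prod _ fun i _ => ?_)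
    exact (hrt.1 _).iterated_deriv _
  have hword : meromorphicOrderAt (fun z => (wz f l z).det) z = 0 := by
    rw [hwan.meromorphicOrderAt_eq, hwan.analyticOrderAt_eq_zero.2 hdet]
    rfl
  have hwO : wr MDer (yv hf l) ∈ OZ z := by
    rw [hwe]
    exact ⟨_, hwm, rfl, hword.ge⟩
  have hwI : (wr MDer (yv hf l))⁻¹ ∈ OZ z := by
    rw [hwe, cl_inv]
    refine ⟨_, hwm.inv, rfl, ?_⟩
    rw [meromorphicOrderAt_inv, hword]
    rfl
  have hσO : σ ∈ OZ z := by
    rw [hσ]
    unfold nt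
    rw [div_eq_mul_inv]
    refine (OZ z).mul_mem ((OZ z).neg_mem ?_) ((OZ z).mul_mem (OZ_D hwO) hwI)
    have h1 := OZ_const z ((N + 1 : ℕ) : ℂ)⁻¹
    rwa [map_inv₀, map_natCast] at h1
  have htw : ∀ (i : ℕ) (j : Fin (N + 1)), (tw MDer σ)^[i] (yv hf l j) ∈ OZ z := by
    intro i j
    induction i with
    | zero => exact hyO j
    | succ i ih =>
      rw [Function.iterate_succ_apply']
      exact (OZ z).add_mem (OZ_D ih) ((OZ z).mul_mem hσO ih)
  refine cramer_mem (OZ z) (Ψ := tm MDer σ (yv hf l)) (fun j i => htw i j) ?_ ?_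
    (fun j => htw (N + 1) j) (a := a) ?_ i
  · rw [det_tm]
    exact hw
  · rw [det_tm]
    exact hwI
  · funext j
    rw [ha' j]
    change ∑ i, tm MDer σ (yv hf l) j i * a i = _
    refine Finset.sum_congr rfl fun i _ => ?_
    rw [mul_comm]
    rfl

/-- the class of the functions which are bounded by small functions and the counting function of
the divisor `D` -/
noncomputable def extClass (f : ℂ → ℙ ℂ (Fin (N + 1) → ℂ))
    (D : Function.locallyFinsuppWithin (univ : Set ℂ) ℤ) (hD : 0 ≤ D) : GrowthClass where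
  mem u := ∀ ε : ℝ, 0 < ε → ∃ (C : ℝ) (E : Set ℝ), volume E < ⊤ ∧
    ∀ r, 1 ≤ r → r ∉ E → u r ≤ ε * order f r +
      C * (Function.locallyFinsuppWithin.logCounting D r + Real.log r + 1)
  log_mem := by
    intro ε hε
    refine ⟨1, ∅, by simp, fun r hr _ => ?_⟩
    have h1 := mul_nonneg hε.le (order_nonneg f hr)
    have h2 := Function.locallyFinsuppWithin.logCounting_nonneg hD hr
    linarith
  add_mem := by
    intro u v h1 h2 ε hε
    obtain ⟨C1, E1, h1, h1'⟩ := h1 (ε / 2) (by linarith)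
    obtain ⟨C2, E2, h2, h2'⟩ := h2 (ε / 2) (by linarith)
    refine ⟨C1 + C2, E1 ∪ E2, lt_of_le_of_lt (measure_union_le _ _)
      (ENNReal.add_lt_top.2 ⟨h1, h2⟩), fun r hr hrE => ?_⟩
    rw [mem_union, not_or] at hrE
    have e1 := h1' r hr hrE.1
    have e2 := h2' r hr hrE.2
    linarith
  of_le := by
    intro u v E hu hE h ε hε
    obtain ⟨C, E', h1, h1'⟩ := hu ε hε
    refine ⟨C, E' ∪ E, lt_of_le_of_lt (measure_union_le _ _)
      (ENNReal.add_lt_top.2 ⟨h1, hE⟩), fun r hr hrE => ?_⟩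
    rw [mem_union, not_or] at hrE
    exact (h r hr hrE.2).trans (h1' r hr hrE.1)

theorem ext_of_small {f : ℂ → ℙ ℂ (Fin (N + 1) → ℂ)}
    {D : Function.locallyFinsuppWithin (univ : Set ℂ) ℤ} (hD : 0 ≤ D) {u : ℝ → ℝ}
    (hu : (smallClass f).mem u) : (extClass f D hD).mem u := by
  intro ε hε
  obtain ⟨C, E, hE, h⟩ := hu ε hε
  refine ⟨|C|, E, hE, fun r hr hrE => (h r hr hrE).trans ?_⟩
  have h1 := Real.log_nonneg hr
  have h2 := Function.locallyFinsuppWithin.logCounting_nonneg hD hr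
  have h3 : C * (Real.log r + 1) ≤ |C| * (Real.log r + 1) :=
    mul_le_mul_of_nonneg_right (le_abs_self C) (by linarith)
  nlinarith [mul_nonneg (abs_nonneg C) h2]

/-- functions with small proximity function and poles in the support of the divisor -/
theorem in_ext {f : ℂ → ℙ ℂ (Fin (N + 1) → ℂ)}
    {D : Function.locallyFinsuppWithin (univ : Set ℂ) ℤ} (hD : 0 ≤ D) {h : ℂ → ℂ} {k : ℕ}
    (hh : Pk f k h) (hp : ∀ z, D z = 0 → 0 ≤ meromorphicOrderAt h z) :
    (extClass f D hD).In h := by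
  have hm := hh.1.1
  refine ⟨hm, ?_⟩
  have h1 : (extClass f D hD).mem (logCounting h ⊤) := by
    intro ε hε
    refine ⟨k, ∅, by simp, fun r hr _ => ?_⟩
    have h2 : (divisor h univ)⁻ ≤ k • D := by
      intro z
      have hcoe : (k • D) z = k * D z := by
        rw [Function.locallyFinsuppWithin.coe_nsmul, Pi.smul_apply, nsmul_eq_mul]
      rw [hcoe, Function.locallyFinsuppWithin.negPart_apply,
        divisor_apply hm.meromorphicOn (mem_univ z)]
      have hDz : 0 ≤ D z := hD z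
      rcases eq_or_lt_of_le hDz with h3 | h3
      · have h4 := WithTop.untop₀_nonneg.2 (hp z h3.symm)
        rw [negPart_eq_zero.2 h4]
        positivity
      · have h4 := hh.2.2 z
        have h5 : -(k : ℤ) ≤ (meromorphicOrderAt h z).untop₀ := by
          cases h6 : meromorphicOrderAt h z with
          | top => simp
          | coe n =>
            rw [h6] at h4
            rw [WithTop.untop₀_coe]
            exact WithTop.coe_le_coe.1 h4
        have h6 : (meromorphicOrderAt h z).untop₀⁻ ≤ (k : ℤ) := by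
          rw [negPart_def]
          exact sup_le (by omega) (by positivity)
        nlinarith
    have h3 := Function.locallyFinsuppWithin.logCounting_le h2 hr
    rw [map_nsmul, Pi.smul_apply, nsmul_eq_mul] at h3
    rw [logCounting_top]
    have h4 := mul_nonneg hε.le (order_nonneg f hr)
    have h5 := Real.log_nonneg hr
    have h6 : (0 : ℝ) ≤ k := Nat.cast_nonneg k
    nlinarith
  exact (extClass f D hD).add_mem _ _ (ext_of_small hD hh.2.1) h1

/-- the differential equation with coefficients in the class -/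
theorem exists_coeff {f : ℂ → ℙ ℂ (Fin (N + 1) → ℂ)} (hf : HolMap f) (hnd : NonDeg f)
    {D : Function.locallyFinsuppWithin (univ : Set ℂ) ℤ} (hD : 0 ≤ D)
    (hDi : ∀ z, Inflection f z → D z ≠ 0)
    {l0 : Fin (N + 1)} {z0 : ℂ} (hl0 : (f z0).rep l0 ≠ 0) :
    ∃ a : Fin (N + 1) → MK, (∀ i, a i ∈ GF (extClass f D hD)) ∧
      ∀ j, (tw MDer (nt MDer (yv hf l0)))^[N + 1] (yv hf l0 j) =
        ∑ i : Fin (N + 1), a i * (tw MDer (nt MDer (yv hf l0)))^[(i : ℕ)] (yv hf l0 j) := by
  have hy : ∀ j, yv hf l0 j ∈ GF (fullClass f) := fun j =>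
    ⟨rt f l0 j, rt_mero hf l0 j, rfl, ratio_full hf j l0⟩
  have hwr : wr MDer (yv hf l0) ∈ GF (fullClass f) := by
    have h1 : ∀ (j : Fin (N + 1)) (i : ℕ), (⇑MDer)^[i] (yv hf l0 j) ∈ GF (fullClass f) := by
      intro j i
      induction i with
      | zero => exact hy j
      | succ i ih =>
        rw [Function.iterate_succ_apply']
        exact GF_D ih
    unfold wr
    rw [Matrix.det_apply]
    refine (GF (fullClass f)).sum_mem fun τ _ => ?_
    rcases Int.units_eq_one_or (Equiv.Perm.sign τ) with h2 | h2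
    · rw [h2, one_smul]
      exact (GF (fullClass f)).prod_mem fun i _ => h1 _ _
    · rw [h2, Units.neg_smul, one_smul]
      exact (GF (fullClass f)).neg_mem ((GF (fullClass f)).prod_mem fun i _ => h1 _ _)
  have hσ : nt MDer (yv hf l0) ∈ (PF f).P 1 := by
    unfold nt
    have h1 : -((N + 1 : ℕ) : MK)⁻¹ ∈ (PF f).P 0 := by
      refine (PF f).P 0 |>.neg_mem ?_
      refine ⟨fun _ => ((N + 1 : ℕ) : ℂ)⁻¹, Meromorphic.const _, ?_, GrowthClass.in_const _ _, ?_,
        fun z => ?_⟩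
      · rw [cl_const, map_inv₀, map_natCast]
      · refine (smallClass f).of_le' ((smallClass f).const_mem
          (Real.posLog ‖((N + 1 : ℕ) : ℂ)⁻¹‖)) fun r _ => ?_
        rw [proximity_const]
      · have h2 : 0 ≤ meromorphicOrderAt (fun _ : ℂ => ((N + 1 : ℕ) : ℂ)⁻¹) z :=
          (analyticAt_const).meromorphicOrderAt_nonneg
        simpa using h2
    have h2 := (PF f).mul h1 (log_PF hwr)
    rwa [zero_add] at h2
  obtain ⟨a, ha, hrel⟩ := exists_eq (Φ := PF f) (F := GF (fullClass f)) (fun x hx => GF_D hx)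
    (fun x hx => log_PF hx) hy hσ
  refine ⟨a, fun i => ?_, hrel⟩
  obtain ⟨h, hh, he, hP⟩ := ha i
  refine ⟨h, hh, he, in_ext hD hP fun z hz => ?_⟩
  have h1 : a i ∈ OZ z := reg hf hnd hl0 hrel (fun h2 => hDi z h2 hz) i
  rw [← he] at h1
  exact OZ_iff h1

/-- the curve is given by linear differential equations with coefficients in the class -/
theorem iterated_ext {f : ℂ → ℙ ℂ (Fin (N + 1) → ℂ)} (hf : HolMap f) (hnd : NonDeg f)
    {D : Function.locallyFinsuppWithin (univ : Set ℂ) ℤ} (hD : 0 ≤ D)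
    (hDi : ∀ z, Inflection f z → D z ≠ 0) : IteratedOver (extClass f D hD).ring f := by
  obtain ⟨l0, hl0'⟩ := Function.ne_iff.1 (f 0).rep_nonzero
  have hl0 : (f 0).rep l0 ≠ 0 := hl0'
  obtain ⟨a, ha, hrel⟩ := exists_coeff hf hnd hD hDi hl0
  have hw := wr_yv_ne hf hnd hl0
  obtain ⟨σ, hσ⟩ : ∃ σ, σ = nt MDer (yv hf l0) := ⟨_, rfl⟩
  rw [← hσ] at hrel
  obtain ⟨l, m, hlm⟩ := exists_inv_ne (Nat.succ_pos N) (σ := σ) hw
  have hcmp : ∀ i j, cmp a i j ∈ GF (extClass f D hD) := by
    intro i j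
    change (if (j : ℕ) + 1 < N + 1 then (if (i : ℕ) = j + 1 then (1 : MK) else 0) else a i) ∈ _
    split_ifs
    · exact Subfield.one_mem _
    · exact Subfield.zero_mem _
    · exact ha i
  have hent : ∀ q q' : Fin (N + 1) × Fin (N + 1),
      ((if q'.2 = q.2 then cmp a q'.1 q.1 else 0) - if q'.1 = q.1 then cmp a q.2 q'.2 else 0) ∈
        GF (extClass f D hD) := by
    intro q q'
    refine Subfield.sub_mem _ ?_ ?_
    · split_ifs
      · exact hcmp _ _
      · exact Subfield.zero_mem _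
    · split_ifs
      · exact hcmp _ _
      · exact Subfield.zero_mem _
  choose A hAm hAe hAi using hent
  choose Z hZm hZe using fun (j : Fin (N + 1)) (q : Fin (N + 1) × Fin (N + 1)) =>
    cl_surj (zz MDer σ (yv hf l0) j m q)
  have hode : ∀ j, ∀ᶠ z in codiscrete ℂ, ∀ q,
      HasDerivAt (Z j q) (∑ q', A q q' z * Z j q' z) z := by
    intro j
    rw [eventually_all]
    intro q
    have h1 := D_zz hw hrel j m q
    have hm : Meromorphic fun z => ∑ q', A q q' z * Z j q' z := by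
      intro z
      exact MeromorphicAt.fun_sum fun q' _ => (hAm q q' z).mul (hZm j q' z)
    have h2 : cl (deriv (Z j q)) (hZm j q).deriv = cl (fun z => ∑ q', A q q' z * Z j q' z) hm := by
      rw [← MD_cl (hZm j q), hZe, ← MDer_apply, h1]
      have h3 : ∀ q', ((if q'.2 = q.2 then cmp a q'.1 q.1 else 0) -
          if q'.1 = q.1 then cmp a q.2 q'.2 else 0) * zz MDer σ (yv hf l0) j m q' =
          Ideal.Quotient.mk MJ (⟨A q q', hAm q q'⟩ * ⟨Z j q', hZm j q'⟩) := by
        intro q'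
        rw [← hAe q q', ← hZe j q', map_mul]
        rfl
      simp only [h3]
      rw [← map_sum]
      change Ideal.Quotient.mk MJ _ = Ideal.Quotient.mk MJ _
      congr 1
      apply Subtype.ext
      change MerS.val (∑ q', (⟨A q q', hAm q q'⟩ * ⟨Z j q', hZm j q'⟩ : MerS)) = _
      rw [map_sum]
      funext z
      rw [Finset.sum_apply]
      rfl
    rw [cl_eq] at h2
    filter_upwards [h2, mero_an (hZm j q)] with z h3 h4
    rw [← h3]
    exact h4.differentiableAt.hasDerivAt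
  have hiter : ∀ j q, IterLin (extClass f D hD).ring (Z j q) := by
    intro j q
    obtain ⟨e⟩ : Nonempty (Fin (N + 1) × Fin (N + 1) ≃ Fin ((N + 1) * (N + 1))) :=
      ⟨finProdFinEquiv⟩
    have h1 := IterLin.ode (B := (extClass f D hD).ring)
      (fun i i' => A (e.symm i) (e.symm i')) (fun i => Z j (e.symm i))
      (fun i i' => by
        have h2 := IterLin.quot (B := (extClass f D hD).ring) (hAi (e.symm i) (e.symm i'))
          (GrowthClass.in_const (extClass f D hD) 1)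
        simpa using h2)
      (fun i => hZm j _) (by
        filter_upwards [hode j] with z hz i
        have h3 := hz (e.symm i)
        rwa [← e.symm.sum_comp fun q' => A (e.symm i) q' z * Z j q' z] at h3) (e q)
    simpa using h1
  refine ⟨fun j => Z j (0, l), fun j => hiter j _, ?_⟩
  obtain ⟨cf, hcf, hce⟩ := cl_surj ((tm MDer σ (yv hf l0))⁻¹ l m)
  have h1 : ∀ᶠ z in codiscrete ℂ, cf z ≠ 0 := by
    refine mero_ne hcf fun h2 => hlm ?_
    rw [← hce]
    exact cl_eq_zero.2 h2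
  have h2 : ∀ j, ∀ᶠ z in codiscrete ℂ, Z j (0, l) z = rt f l0 j z * cf z := by
    intro j
    have h3 : cl (Z j (0, l)) (hZm j (0, l)) = cl (rt f l0 j * cf) ((rt_mero hf l0 j).mul hcf) := by
      rw [hZe, ← cl_mul (rt_mero hf l0 j) hcf, hce]
      rfl
    exact cl_eq.1 h3
  filter_upwards [h1, eventually_all.2 h2, rep_codis hf hl0] with z h3 h4 h5
  have h6 : (fun j => Z j (0, l) z) = fun j => (cf z / (f z).rep l0) * (f z).rep j := by
    funext j
    rw [h4 j]
    unfold rt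
    ring
  rw [h6]
  exact (rep_smul (div_ne_zero h3 h5)).2 (rep_rep (f z))

/-- the bound for the order function -/
theorem bound_of_ext {f : ℂ → ℙ ℂ (Fin (N + 1) → ℂ)}
    {D : Function.locallyFinsuppWithin (univ : Set ℂ) ℤ} (hD : 0 ≤ D)
    (h : (extClass f D hD).mem (order f)) : ∃ (C : ℝ) (S : Set ℝ), volume S < ⊤ ∧
      ∀ r, 1 ≤ r → r ∉ S →
        order f r ≤ C * (Function.locallyFinsuppWithin.logCounting D r + Real.log r + 1) := by
  obtain ⟨C, E, hE, h1⟩ := h (1 / 2) (by norm_num)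
  refine ⟨2 * C, E, hE, fun r hr hrE => ?_⟩
  have h2 := h1 r hr hrE
  linarith

/-- the divisor of the inflection points, counted without multiplicity -/
theorem exists_divisor {f : ℂ → ℙ ℂ (Fin (N + 1) → ℂ)} (hf : HolMap f) (hnd : NonDeg f) :
    ∃ D : Function.locallyFinsuppWithin (univ : Set ℂ) ℤ,
      ∀ z, (Inflection f z → D z = 1) ∧ (¬ Inflection f z → D z = 0) := by
  classical
  refine ⟨⟨fun z => if Inflection f z then 1 else 0, fun z _ => mem_univ z, fun z _ => ?_⟩,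
    fun z => ⟨fun h => if_pos h, fun h => if_neg h⟩⟩
  have h1 := codis_ev (not_infl hf hnd) z
  rw [eventually_nhdsWithin_iff] at h1
  refine ⟨_, h1, (finite_singleton z).subset ?_⟩
  rintro w ⟨h2, h3⟩
  rw [mem_singleton_iff]
  by_contra hne
  apply h3
  exact if_neg (h2 hne)

end Pool.Agent.E8helper90.RM
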