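import Pool.Agent.E8helper90.ND.Cf
import Pool.Agent.E8helper90.RM.Sys

/-!
Growth and poles of meromorphic functions: the filtration by the orders of the poles of the
functions with small proximity function.
-/

set_option autoImplicit false

namespace Pool.Agent.E8helper90.RM

open MeasureTheory Set Filter Topology ValueDistribution MvPolynomial MeromorphicOn
open scoped LinearAlgebra.Projectivization
open Pool.Agent.TH143.EL (HolMap InV Rep MK cl cl_eq cl_add cl_mul cl_const cl_eq_zero cl_inv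
  cl_div cl_surj MD MD_cl MDer MDer_apply mero_an mero_ne)
open Pool.Agent.E8helper90.ND

variable {N : ℕ}

theorem in_neg {G : GrowthClass} {h : ℂ → ℂ} (hh : G.In h) : G.In (-h) := by
  have h1 := GrowthClass.in_mul (G.in_const (-1)) hh
  refine GrowthClass.in_congr h1 hh.1.neg (Eventually.of_forall fun z => ?_)
  simp

/-- the field of the classes of the functions with growth in `G` -/
noncomputable def GF (G : GrowthClass) : Subfield MK where
  carrier := {x | ∃ (f : ℂ → ℂ) (hf : Meromorphic f), cl f hf = x ∧ G.In f}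
  mul_mem' := by
    rintro _ _ ⟨f, hf, rfl, h1⟩ ⟨g, hg, rfl, h2⟩
    exact ⟨f * g, hf.mul hg, (cl_mul hf hg).symm, GrowthClass.in_mul h1 h2⟩
  one_mem' := ⟨fun _ => 1, Meromorphic.const 1, by rw [cl_const, map_one], G.in_const 1⟩
  add_mem' := by
    rintro _ _ ⟨f, hf, rfl, h1⟩ ⟨g, hg, rfl, h2⟩
    exact ⟨f + g, hf.add hg, (cl_add hf hg).symm, GrowthClass.in_add h1 h2⟩
  zero_mem' := ⟨fun _ => 0, Meromorphic.const 0, by rw [cl_const, map_zero], G.in_const 0⟩
  neg_mem' := by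
    rintro _ ⟨f, hf, rfl, h1⟩
    refine ⟨-f, hf.neg, ?_, in_neg h1⟩
    rw [eq_neg_iff_add_eq_zero, cl_add, cl_eq_zero]
    exact Eventually.of_forall fun z => by simp
  inv_mem' := by
    rintro _ ⟨f, hf, rfl, h1⟩
    exact ⟨f⁻¹, hf.inv, (cl_inv hf).symm, GrowthClass.in_inv h1⟩

theorem GF_D {G : GrowthClass} {x : MK} (hx : x ∈ GF G) : MDer x ∈ GF G := by
  obtain ⟨f, hf, rfl, h1⟩ := hx
  exact ⟨deriv f, hf.deriv, (MD_cl hf).symm, GrowthClass.in_deriv h1⟩

/-- the class of the functions bounded by the order function of the curve -/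
noncomputable def fullClass (f : ℂ → ℙ ℂ (Fin (N + 1) → ℂ)) : GrowthClass :=
  bigO (fun r => order f r + (Real.log r + 1)) fun r hr => by
    have := order_nonneg f hr
    linarith

theorem ratio_mero {f : ℂ → ℙ ℂ (Fin (N + 1) → ℂ)} (hf : HolMap f) (i l : Fin (N + 1)) :
    Meromorphic fun z => (f z).rep i / (f z).rep l := by
  have h2 := quo_mero hf (isHomogeneous_X ℂ i) (isHomogeneous_X ℂ l)
  unfold quo at h2
  simpa only [eval_X] using h2

theorem ratio_full {f : ℂ → ℙ ℂ (Fin (N + 1) → ℂ)} (hf : HolMap f) (i l : Fin (N + 1)) :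
    (fullClass f).In fun z => (f z).rep i / (f z).rep l := by
  refine ⟨ratio_mero hf i l, 1, ∅, by simp, fun r hr _ => ?_⟩
  have h1 := le_order f i l hr
  have h2 := Real.log_nonneg hr
  linarith

/-- logarithmic derivatives have small proximity functions -/
theorem small_lld {f : ℂ → ℙ ℂ (Fin (N + 1) → ℂ)} {h : ℂ → ℂ} (hh : (fullClass f).In h)
    (hne : ∀ z, meromorphicOrderAt h z ≠ ⊤) :
    (smallClass f).mem (proximity (logDeriv h) ⊤) := by
  obtain ⟨C, E, hC, hE, hb⟩ := lld hh.1 hne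
  obtain ⟨C1, E1, hE1, hb1⟩ := hh.2
  intro ε hε
  obtain ⟨δ, hδ⟩ : ∃ δ : ℝ, δ = ε / ((C + 1) * (|C1| + 1)) := ⟨_, rfl⟩
  have hδ0 : 0 < δ := by rw [hδ]; positivity
  refine ⟨C * (δ * (|C1| + 1) + |Real.log δ| + 1), E ∪ E1,
    lt_of_le_of_lt (measure_union_le _ _) (ENNReal.add_lt_top.2 ⟨hE, hE1⟩), fun r hr hrE => ?_⟩
  rw [mem_union, not_or] at hrE
  have e1 := hb r hr hrE.1
  have e2 := hb1 r hr hrE.2
  have e3 := order_nonneg f hr
  have e4 := Real.log_nonneg hr
  have hT := characteristic_nonneg (f := h) (a := ⊤) hr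
  have e5 : Real.log (characteristic h ⊤ r + 1) ≤
      δ * (characteristic h ⊤ r + 1) - Real.log δ := by
    have h1 := Real.log_le_sub_one_of_pos (x := δ * (characteristic h ⊤ r + 1)) (by positivity)
    rw [Real.log_mul hδ0.ne' (by linarith)] at h1
    linarith
  have e6 : characteristic h ⊤ r + 1 ≤ (|C1| + 1) * (order f r + (Real.log r + 1)) := by
    have h1 : C1 * (order f r + (Real.log r + 1)) ≤ |C1| * (order f r + (Real.log r + 1)) :=
      mul_le_mul_of_nonneg_right (le_abs_self C1) (by linarith)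
    linarith
  have e7 : δ * (characteristic h ⊤ r + 1) ≤
      δ * ((|C1| + 1) * (order f r + (Real.log r + 1))) :=
    mul_le_mul_of_nonneg_left e6 hδ0.le
  have e8 : C * (δ * (|C1| + 1)) ≤ ε := by
    rw [hδ]
    have h1 : C * (ε / ((C + 1) * (|C1| + 1)) * (|C1| + 1)) = ε * (C / (C + 1)) := by
      field_simp
    rw [h1]
    have h2 : C / (C + 1) ≤ 1 := by
      rw [div_le_one (by linarith)]
      linarith
    nlinarith
  have e9 : -Real.log δ ≤ |Real.log δ| := neg_le_abs _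
  have h0 := abs_nonneg (Real.log δ)
  have hC1 := abs_nonneg C1
  calc proximity (logDeriv h) ⊤ r
      ≤ C * (Real.log (characteristic h ⊤ r + 1) + Real.log r + 1) := e1
    _ ≤ C * (δ * ((|C1| + 1) * (order f r + (Real.log r + 1))) + |Real.log δ| + Real.log r + 1) :=
        mul_le_mul_of_nonneg_left (by linarith) hC
    _ = C * (δ * (|C1| + 1)) * order f r + C * (δ * (|C1| + 1) * (Real.log r + 1) +
        |Real.log δ| + (Real.log r + 1)) := by ring
    _ ≤ ε * order f r + C * (δ * (|C1| + 1) + |Real.log δ| + 1) * (Real.log r + 1) := by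
        refine add_le_add (mul_le_mul_of_nonneg_right e8 e3) ?_
        rw [mul_assoc C (δ * (|C1| + 1) + |Real.log δ| + 1)]
        refine mul_le_mul_of_nonneg_left ?_ hC
        nlinarith [mul_nonneg h0 e4]

/-! ### orders -/

theorem ord_deriv {h : ℂ → ℂ} (hh : Meromorphic h) {z : ℂ} {k : ℤ}
    (hk : (k : WithTop ℤ) ≤ meromorphicOrderAt h z) :
    ((k - 1 : ℤ) : WithTop ℤ) ≤ meromorphicOrderAt (deriv h) z ∧
      (0 ≤ k → 0 ≤ meromorphicOrderAt (deriv h) z) := by
  rcases zero_or hh with h0 | hne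
  · have h1 : meromorphicOrderAt (deriv h) z = ⊤ :=
      meromorphicOrderAt_eq_top_iff.2 (codis_nhdsNE (deriv_zero_codis h0) z)
    rw [h1]
    exact ⟨le_top, fun _ => le_top⟩
  · obtain ⟨n, hn⟩ := WithTop.ne_top_iff_exists.1 (hne z)
    rw [← hn] at hk
    have hk' : k ≤ n := WithTop.coe_le_coe.1 hk
    by_cases h0 : n = 0
    · have h1 : 0 ≤ meromorphicOrderAt (deriv h) z := by
        have h2 : deriv h =ᶠ[𝓝[≠] z] h * logDeriv h := codis_nhdsNE (deriv_eq_mul hh hne) z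
        have h3 : Meromorphic (logDeriv h) := hh.deriv.div hh
        rw [meromorphicOrderAt_congr h2, meromorphicOrderAt_mul (hh z) (h3 z), ← hn, h0]
        have h4 := meromorphicOrderAt_logDeriv_nonneg (hh z) (by rw [← hn, h0]; rfl)
        simpa using h4
      refine ⟨le_trans ?_ h1, fun _ => h1⟩
      exact_mod_cast (by omega : k - 1 ≤ 0)
    · have h1 := meromorphicOrderAt_deriv_eq_sub_one (f := h) (x := z) (n := n)
        (by exact_mod_cast h0) hn.symm
      rw [h1]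
      refine ⟨WithTop.coe_le_coe.2 (by omega), fun h2 => ?_⟩
      exact_mod_cast (by omega : (0 : ℤ) ≤ n - 1)

theorem ord_logDeriv {h : ℂ → ℂ} (hh : Meromorphic h) (hne : ∀ z, meromorphicOrderAt h z ≠ ⊤)
    (z : ℂ) : ((-1 : ℤ) : WithTop ℤ) ≤ meromorphicOrderAt (logDeriv h) z := by
  obtain ⟨n, hn⟩ := WithTop.ne_top_iff_exists.1 (hne z)
  by_cases h0 : n = 0
  · have h4 := meromorphicOrderAt_logDeriv_nonneg (hh z) (by rw [← hn, h0]; rfl)
    exact le_trans (by exact_mod_cast (by norm_num : (-1 : ℤ) ≤ 0)) h4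
  · have h1 := meromorphicOrderAt_deriv_eq_sub_one (f := h) (x := z) (n := n)
      (by exact_mod_cast h0) hn.symm
    have h2 : logDeriv h = deriv h * h⁻¹ := by
      funext w
      rw [logDeriv_apply, Pi.mul_apply, Pi.inv_apply, div_eq_mul_inv]
    rw [h2, meromorphicOrderAt_mul (hh.deriv z) (hh.inv z), meromorphicOrderAt_inv, h1, ← hn]
    have h3 : ((n - 1 : ℤ) : WithTop ℤ) + -(n : WithTop ℤ) = ((-1 : ℤ) : WithTop ℤ) := by
      have h4 : (-(n : WithTop ℤ)) = ((-n : ℤ) : WithTop ℤ) := rfl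
      rw [h4, ← WithTop.coe_add]
      congr 1
      ring
    rw [h3]

/-- the functions with small proximity function and poles of order at most `k` -/
def Pk (f : ℂ → ℙ ℂ (Fin (N + 1) → ℂ)) (k : ℕ) (h : ℂ → ℂ) : Prop :=
  (fullClass f).In h ∧ (smallClass f).mem (proximity h ⊤) ∧
    ∀ z, ((-(k : ℤ) : ℤ) : WithTop ℤ) ≤ meromorphicOrderAt h z

theorem pk_zero (f : ℂ → ℙ ℂ (Fin (N + 1) → ℂ)) (k : ℕ) : Pk f k fun _ => 0 := by
  refine ⟨GrowthClass.in_const _ 0, ?_, fun z => ?_⟩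
  · refine (smallClass f).of_le' ((smallClass f).const_mem 0) fun r _ => ?_
    rw [proximity_const]
    simp
  · have h1 : meromorphicOrderAt (fun _ : ℂ => (0 : ℂ)) z = ⊤ :=
      meromorphicOrderAt_eq_top_iff.2 (Eventually.of_forall fun _ => rfl)
    rw [h1]
    exact le_top

theorem pk_add {f : ℂ → ℙ ℂ (Fin (N + 1) → ℂ)} {k : ℕ} {g h : ℂ → ℂ} (hg : Pk f k g)
    (hh : Pk f k h) : Pk f k (g + h) := by
  refine ⟨GrowthClass.in_add hg.1 hh.1, ?_, fun z => ?_⟩
  · refine (smallClass f).of_le' ((smallClass f).add_mem _ _ ((smallClass f).add_mem _ _ hg.2.1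
      hh.2.1) ((smallClass f).const_mem (Real.log 2))) fun r _ => ?_
    exact proximity_add_top_le hg.1.1 hh.1.1 r
  · exact (le_min (hg.2.2 z) (hh.2.2 z)).trans (meromorphicOrderAt_add (hg.1.1 z) (hh.1.1 z))

theorem pk_mul {f : ℂ → ℙ ℂ (Fin (N + 1) → ℂ)} {k l : ℕ} {g h : ℂ → ℂ} (hg : Pk f k g)
    (hh : Pk f l h) : Pk f (k + l) (g * h) := by
  refine ⟨GrowthClass.in_mul hg.1 hh.1, ?_, fun z => ?_⟩
  · refine (smallClass f).of_le' ((smallClass f).add_mem _ _ hg.2.1 hh.2.1) fun r _ => ?_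
    exact proximity_mul_top_le hg.1.1 hh.1.1 r
  · rw [meromorphicOrderAt_mul (hg.1.1 z) (hh.1.1 z)]
    have h1 : ((-((k + l : ℕ) : ℤ) : ℤ) : WithTop ℤ) =
        ((-(k : ℤ) : ℤ) : WithTop ℤ) + ((-(l : ℤ) : ℤ) : WithTop ℤ) := by
      rw [← WithTop.coe_add]
      congr 1
      push_cast
      ring
    rw [h1]
    exact add_le_add (hg.2.2 z) (hh.2.2 z)

theorem pk_neg {f : ℂ → ℙ ℂ (Fin (N + 1) → ℂ)} {k : ℕ} {h : ℂ → ℂ}
    (hh : Pk f k h) : Pk f k (-h) := by
  refine ⟨in_neg hh.1, ?_, fun z => ?_⟩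
  · refine (smallClass f).of_le' hh.2.1 fun r _ => ?_
    rw [proximity_top, proximity_top]
    simp
  · rw [← meromorphicOrderAt_neg]
    exact hh.2.2 z

theorem pk_deriv {f : ℂ → ℙ ℂ (Fin (N + 1) → ℂ)} {k : ℕ} {h : ℂ → ℂ}
    (hh : Pk f k h) : Pk f (k + 1) (deriv h) := by
  refine ⟨GrowthClass.in_deriv hh.1, ?_, fun z => ?_⟩
  · rcases zero_or hh.1.1 with h0 | hne
    · refine (smallClass f).of_le' ((smallClass f).const_mem 0) fun r hr => ?_
      rw [proximity_congr_codiscrete (deriv_zero_codis h0) (by linarith : r ≠ 0)]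
      have h1 : proximity (0 : ℂ → ℂ) ⊤ r = 0 := by
        rw [proximity_top]
        simp [Real.circleAverage_const]
      exact h1.le
    · refine (smallClass f).of_le' ((smallClass f).add_mem _ _ hh.2.1 (small_lld hh.1 hne))
        fun r hr => ?_
      rw [proximity_congr_codiscrete (deriv_eq_mul hh.1.1 hne) (by linarith : r ≠ 0)]
      exact proximity_mul_top_le hh.1.1 (hh.1.1.deriv.div hh.1.1) r
  · have h1 := (ord_deriv hh.1.1 (hh.2.2 z)).1
    have h2 : (-(k : ℤ) - 1 : ℤ) = -((k + 1 : ℕ) : ℤ) := by push_cast; ring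
    rwa [h2] at h1

theorem pk_logDeriv {f : ℂ → ℙ ℂ (Fin (N + 1) → ℂ)} {h : ℂ → ℂ} (hh : (fullClass f).In h)
    (hne : ∀ z, meromorphicOrderAt h z ≠ ⊤) : Pk f 1 (logDeriv h) := by
  refine ⟨?_, small_lld hh hne, fun z => ?_⟩
  · have h1 := GrowthClass.in_mul (GrowthClass.in_deriv hh) (GrowthClass.in_inv hh)
    refine GrowthClass.in_congr h1 (hh.1.deriv.div hh.1) (Eventually.of_forall fun z => ?_)
    rw [logDeriv_apply, Pi.mul_apply, Pi.inv_apply, div_eq_mul_inv]
  · simpa using ord_logDeriv hh.1 hne z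

/-- the filtration of the field of meromorphic functions -/
noncomputable def PF (f : ℂ → ℙ ℂ (Fin (N + 1) → ℂ)) : Filt MDer where
  P := fun k =>
    { carrier := {x | ∃ (h : ℂ → ℂ) (hh : Meromorphic h), cl h hh = x ∧ Pk f k h}
      add_mem' := by
        rintro _ _ ⟨g, hg, rfl, h1⟩ ⟨h, hh, rfl, h2⟩
        exact ⟨g + h, hg.add hh, (cl_add hg hh).symm, pk_add h1 h2⟩
      zero_mem' := ⟨fun _ => 0, Meromorphic.const 0, by rw [cl_const, map_zero], pk_zero f k⟩
      neg_mem' := by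
        rintro _ ⟨h, hh, rfl, h1⟩
        refine ⟨-h, hh.neg, ?_, pk_neg h1⟩
        rw [eq_neg_iff_add_eq_zero, cl_add, cl_eq_zero]
        exact Eventually.of_forall fun z => by simp }
  mul := by
    rintro m l _ _ ⟨g, hg, rfl, h1⟩ ⟨h, hh, rfl, h2⟩
    exact ⟨g * h, hg.mul hh, (cl_mul hg hh).symm, pk_mul h1 h2⟩
  der := by
    rintro m _ ⟨h, hh, rfl, h1⟩
    exact ⟨deriv h, hh.deriv, (MD_cl hh).symm, pk_deriv h1⟩

theorem mem_PF {f : ℂ → ℙ ℂ (Fin (N + 1) → ℂ)} {k : ℕ} {x : MK} :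
    x ∈ (PF f).P k ↔ ∃ (h : ℂ → ℂ) (hh : Meromorphic h), cl h hh = x ∧ Pk f k h := Iff.rfl

theorem log_PF {f : ℂ → ℙ ℂ (Fin (N + 1) → ℂ)} {x : MK} (hx : x ∈ GF (fullClass f)) :
    MDer x / x ∈ (PF f).P 1 := by
  obtain ⟨h, hh, rfl, h1⟩ := hx
  rcases zero_or hh with h0 | hne
  · rw [cl_eq_zero.2 h0, div_zero]
    exact AddSubgroup.zero_mem _
  · refine ⟨logDeriv h, hh.deriv.div hh, ?_, pk_logDeriv h1 hne⟩
    rw [MDer_apply, MD_cl, cl_div]
    rfl

end Pool.Agent.E8helper90.RM
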