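import Pool.Agent.E8helper90.RM.Grow
import Pool.Agent.W602.GT.Lam

/-!
The inflection points of an entire curve, and the Wronskian.
-/

set_option autoImplicit false

namespace Pool.Agent.E8helper90.RM

open MeasureTheory Set Filter Topology ValueDistribution MvPolynomial MeromorphicOn
open scoped LinearAlgebra.Projectivization
open Pool.Agent.TH143.EL (HolMap InV Rep MK MJ MerS evS cl cl_eq cl_add cl_mul cl_const cl_eq_zero
  cl_inv cl_div cl_surj MD MD_cl MDer MDer_apply mero_an mero_ne rep_smul rep_rep rep_iff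
  codis_connected codis_open codis_ev mero_id)
open Pool.Agent.E8helper90.ND
open Pool.Agent.W603.LV (wm wr)
open Pool.Agent.W602.GT (wr_ne)

variable {N : ℕ}

/-- A point `z` of the plane is an inflection point of the curve `f` in the projective space of
dimension `N` if a hyperplane meets the curve at `z` with multiplicity at least `N + 1`. -/
def Inflection (f : ℂ → ℙ ℂ (Fin (N + 1) → ℂ)) (z : ℂ) : Prop :=
  ∃ g : Fin (N + 1) → ℂ → ℂ, (∀ j, AnalyticAt ℂ (g j) z) ∧
    (∀ᶠ w in 𝓝 z, Rep (f w) fun j => g j w) ∧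
    ∃ c : Fin (N + 1) → ℂ, c ≠ 0 ∧
      ((N + 1 : ℕ) : ℕ∞) ≤ analyticOrderAt (fun w => ∑ j, c j * g j w) z

/-- the quotients of the coordinates -/
noncomputable def rt (f : ℂ → ℙ ℂ (Fin (N + 1) → ℂ)) (l j : Fin (N + 1)) : ℂ → ℂ :=
  fun z => (f z).rep j / (f z).rep l

theorem rt_mero {f : ℂ → ℙ ℂ (Fin (N + 1) → ℂ)} (hf : HolMap f) (l j : Fin (N + 1)) :
    Meromorphic (rt f l j) := ratio_mero hf j l

theorem rep_ratio {p : ℙ ℂ (Fin (N + 1) → ℂ)} {v : Fin (N + 1) → ℂ} (hv : Rep p v)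
    (j l : Fin (N + 1)) : p.rep j / p.rep l = v j / v l ∧ (p.rep l = 0 ↔ v l = 0) := by
  obtain ⟨hv0, rfl⟩ := hv
  obtain ⟨c, hc⟩ := Projectivization.exists_smul_eq_mk_rep ℂ v hv0
  have h1 : ∀ i, (Projectivization.mk ℂ v hv0).rep i = (c : ℂ) * v i := by
    intro i
    rw [← hc]
    rfl
  constructor
  · rw [h1, h1, mul_div_mul_left _ _ c.ne_zero]
  · rw [h1]
    simp

theorem rt_an {f : ℂ → ℙ ℂ (Fin (N + 1) → ℂ)} (hf : HolMap f) {l : Fin (N + 1)} {z : ℂ}
    (hl : (f z).rep l ≠ 0) : (∀ j, AnalyticAt ℂ (rt f l j) z) ∧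
      ∀ᶠ w in 𝓝 z, Rep (f w) fun j => rt f l j w := by
  obtain ⟨g, hg, hr⟩ := hf z
  have h0 : g l z ≠ 0 := fun h => hl ((rep_ratio hr.self_of_nhds l l).2.2 h)
  have h1 : ∀ᶠ w in 𝓝 z, g l w ≠ 0 := (hg l).continuousAt.eventually_ne h0
  constructor
  · intro j
    refine ((hg j).div (hg l) h0).congr ?_
    filter_upwards [hr] with w hw
    exact (rep_ratio hw j l).1.symm
  · filter_upwards [hr, h1] with w hw hw1
    have h2 : (fun j => rt f l j w) = fun j => (g l w)⁻¹ * g j w := by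
      funext j
      unfold rt
      rw [(rep_ratio hw j l).1, div_eq_inv_mul]
    rw [h2]
    exact (rep_smul (inv_ne_zero hw1)).2 hw

/-- the Wronskian matrix at a point -/
noncomputable def wz (f : ℂ → ℙ ℂ (Fin (N + 1) → ℂ)) (l : Fin (N + 1)) (z : ℂ) :
    Matrix (Fin (N + 1)) (Fin (N + 1)) ℂ := Matrix.of fun j i => deriv^[(i : ℕ)] (rt f l j) z

theorem sum_iter {f : ℂ → ℙ ℂ (Fin (N + 1) → ℂ)} (hf : HolMap f) {l : Fin (N + 1)} {z : ℂ}
    (hl : (f z).rep l ≠ 0) (c : Fin (N + 1) → ℂ) :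
    ((N + 1 : ℕ) : ℕ∞) ≤ analyticOrderAt (fun w => ∑ j, c j * rt f l j w) z ↔
      Matrix.vecMul c (wz f l z) = 0 := by
  have hH := (rt_an hf hl).1
  have han : AnalyticAt ℂ (fun w => ∑ j, c j * rt f l j w) z :=
    Finset.analyticAt_fun_sum _ fun i _ => analyticAt_const.mul (hH i)
  rw [natCast_le_analyticOrderAt_iff_iteratedDeriv_eq_zero han]
  have h1 : ∀ k, iteratedDeriv k (fun w => ∑ j, c j * rt f l j w) z =
      ∑ j, c j * deriv^[k] (rt f l j) z := by
    intro k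
    rw [iteratedDeriv_fun_sum (f := fun i z => c i * rt f l i z) (fun i _ =>
      (analyticAt_const.mul (hH i)).contDiffAt)]
    refine Finset.sum_congr rfl fun i _ => ?_
    rw [iteratedDeriv_const_mul_field, iteratedDeriv_eq_iterate]
  constructor
  · intro h
    funext i
    have h2 := h i i.2
    rw [h1] at h2
    exact h2
  · intro h i hi
    rw [h1]
    exact congrFun h ⟨i, hi⟩

theorem infl_iff {f : ℂ → ℙ ℂ (Fin (N + 1) → ℂ)} (hf : HolMap f) {l : Fin (N + 1)} {z : ℂ}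
    (hl : (f z).rep l ≠ 0) : Inflection f z ↔ (wz f l z).det = 0 := by
  rw [← Matrix.exists_vecMul_eq_zero_iff]
  constructor
  · rintro ⟨g, hg, hr, c, hc, ho⟩
    refine ⟨c, hc, ?_⟩
    rw [← sum_iter hf hl]
    have h0 : g l z ≠ 0 := fun h => hl ((rep_ratio hr.self_of_nhds l l).2.2 h)
    have han : AnalyticAt ℂ (fun w => ∑ j, c j * g j w) z :=
      Finset.analyticAt_fun_sum _ fun i _ => analyticAt_const.mul (hg i)
    have h1 : (fun w => ∑ j, c j * rt f l j w) =ᶠ[𝓝 z]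
        (g l)⁻¹ * fun w => ∑ j, c j * g j w := by
      filter_upwards [hr] with w hw
      rw [Pi.mul_apply, Pi.inv_apply, Finset.mul_sum]
      refine Finset.sum_congr rfl fun j _ => ?_
      unfold rt
      rw [(rep_ratio hw j l).1]
      ring
    rw [analyticOrderAt_congr h1, analyticOrderAt_mul ((hg l).inv h0) han]
    exact ho.trans le_add_self
  · rintro ⟨c, hc, h⟩
    rw [← sum_iter hf hl] at h
    exact ⟨rt f l, (rt_an hf hl).1, (rt_an hf hl).2, c, hc, h⟩

/-! ### the Wronskian in the field of meromorphic functions -/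

theorem MD_iter {h : ℂ → ℂ} (hh : Meromorphic h) (i : ℕ) :
    (⇑MDer)^[i] (cl h hh) = cl (deriv^[i] h) hh.iterated_deriv := by
  induction i with
  | zero => rfl
  | succ i ih =>
    rw [Function.iterate_succ_apply', ih, MDer_apply, MD_cl, cl_eq]
    exact Eventually.of_forall fun z => by rw [Function.iterate_succ_apply']

theorem det_cl {n : ℕ} {M : Fin n → Fin n → ℂ → ℂ} (hM : ∀ i j, Meromorphic (M i j)) :
    ∃ h : Meromorphic (fun z => (Matrix.of fun i j => M i j z).det),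
      (Matrix.of fun i j => cl (M i j) (hM i j)).det =
        cl (fun z => (Matrix.of fun i j => M i j z).det) h := by
  obtain ⟨A, hA⟩ : ∃ A : Matrix (Fin n) (Fin n) MerS, A = Matrix.of fun i j => ⟨M i j, hM i j⟩ :=
    ⟨_, rfl⟩
  have h1 : ∀ z, (A.det).1 z = (Matrix.of fun i j => M i j z).det := by
    intro z
    have h2 := RingHom.map_det ((evS z : MerS →ₐ[ℂ] ℂ) : MerS →+* ℂ) A
    have h3 : ((evS z : MerS →ₐ[ℂ] ℂ) : MerS →+* ℂ) A.det = (A.det).1 z := rfl
    rw [← h3, h2, hA]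
    rfl
  have h2 : (fun z => (Matrix.of fun i j => M i j z).det) = (A.det).1 :=
    funext fun z => (h1 z).symm
  have h3 : Meromorphic (fun z => (Matrix.of fun i j => M i j z).det) := by
    rw [h2]
    exact (A.det).2
  refine ⟨h3, ?_⟩
  have h4 := RingHom.map_det (Ideal.Quotient.mk MJ) A
  have h5 : (Ideal.Quotient.mk MJ).mapMatrix A = Matrix.of fun i j => cl (M i j) (hM i j) := by
    rw [hA]
    rfl
  rw [← h5, ← h4]
  change Ideal.Quotient.mk MJ _ = Ideal.Quotient.mk MJ _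
  congr 1
  exact Subtype.ext h2.symm

/-- the classes of the quotients of the coordinates -/
noncomputable def yv {f : ℂ → ℙ ℂ (Fin (N + 1) → ℂ)} (hf : HolMap f) (l j : Fin (N + 1)) : MK :=
  cl (rt f l j) (rt_mero hf l j)

theorem wr_cl {f : ℂ → ℙ ℂ (Fin (N + 1) → ℂ)} (hf : HolMap f) (l : Fin (N + 1)) :
    ∃ h : Meromorphic (fun z => (wz f l z).det),
      wr MDer (yv hf l) = cl (fun z => (wz f l z).det) h := by
  obtain ⟨h, h1⟩ := det_cl (M := fun j i => deriv^[(i : ℕ)] (rt f l j))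
    fun j i => (rt_mero hf l j).iterated_deriv
  refine ⟨h, Eq.trans ?_ h1⟩
  unfold wr
  congr 1
  ext j i
  exact MD_iter _ _

/-- the constants of the field of meromorphic functions -/
theorem MD_zero {x : MK} (hx : MDer x = 0) : ∃ c : ℂ, x = algebraMap ℂ MK c := by
  obtain ⟨h, hh, rfl⟩ := cl_surj x
  rw [MDer_apply, MD_cl, cl_eq_zero] at hx
  have h1 : ∀ᶠ z in codiscrete ℂ, AnalyticAt ℂ h z ∧ deriv h z = 0 := (mero_an hh).and hx
  obtain ⟨U, hU, hU'⟩ : ∃ U ∈ codiscrete ℂ, ∀ z ∈ U, AnalyticAt ℂ h z ∧ deriv h z = 0 :=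
    ⟨_, h1, fun z hz => hz⟩
  obtain ⟨z0, hz0⟩ := (codis_connected hU).nonempty
  refine ⟨h z0, ?_⟩
  rw [← cl_const, cl_eq]
  filter_upwards [hU] with z hz
  exact (codis_open hU).is_const_of_deriv_eq_zero (codis_connected hU).isPreconnected
    (fun w hw => (hU' w hw).1.differentiableAt.differentiableWithinAt)
    (fun w hw => (hU' w hw).2) hz hz0

/-- The curve does not lie in a hyperplane. -/
def NonDeg (f : ℂ → ℙ ℂ (Fin (N + 1) → ℂ)) : Prop :=
  ∀ c : Fin (N + 1) → ℂ, (∀ z, ∑ j, c j * (f z).rep j = 0) → c = 0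

theorem rep_codis {f : ℂ → ℙ ℂ (Fin (N + 1) → ℂ)} (hf : HolMap f) {l : Fin (N + 1)} {z0 : ℂ}
    (hl0 : (f z0).rep l ≠ 0) : ∀ᶠ z in codiscrete ℂ, (f z).rep l ≠ 0 := by
  rcases form_zero_or hf (isHomogeneous_X ℂ l) with h1 | h1
  · exact absurd (by simpa using h1 z0) hl0
  · simpa only [eval_X] using h1

theorem yv_indep {f : ℂ → ℙ ℂ (Fin (N + 1) → ℂ)} (hf : HolMap f) (hnd : NonDeg f)
    {l : Fin (N + 1)} {z0 : ℂ} (hl0 : (f z0).rep l ≠ 0) : LinearIndependent ℂ (yv hf l) := by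
  rw [Fintype.linearIndependent_iff]
  intro c hc
  have hm : Meromorphic fun z => ∑ j, c j * rt f l j z := by
    intro z
    exact MeromorphicAt.fun_sum fun j _ => (MeromorphicAt.const _ _).mul (rt_mero hf l j z)
  have h1 : cl (fun z => ∑ j, c j * rt f l j z) hm = 0 := by
    rw [← hc]
    have h2 : ∀ j, c j • yv hf l j = Ideal.Quotient.mk MJ (c j • ⟨rt f l j, rt_mero hf l j⟩) :=
      fun j => rfl
    simp only [h2]
    rw [← map_sum]
    change Ideal.Quotient.mk MJ _ = Ideal.Quotient.mk MJ _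
    congr 1
    apply Subtype.ext
    change _ = (MerS.val (∑ j, c j • (⟨rt f l j, rt_mero hf l j⟩ : MerS)))
    rw [map_sum]
    funext z
    rw [Finset.sum_apply]
    rfl
  rw [cl_eq_zero] at h1
  have h2 : ∀ᶠ z in codiscrete ℂ, ∑ j, c j * (f z).rep j = 0 := by
    filter_upwards [h1, rep_codis hf hl0] with z hz hz1
    have h3 : ∑ j, c j * rt f l j z = (∑ j, c j * (f z).rep j) / (f z).rep l := by
      rw [Finset.sum_div]
      refine Finset.sum_congr rfl fun j _ => ?_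
      unfold rt
      rw [mul_div_assoc]
    rw [h3] at hz
    exact (div_eq_zero_iff.1 hz).resolve_right hz1
  have hform : (∑ j, C (c j) * X j : MvPolynomial (Fin (N + 1)) ℂ).IsHomogeneous 1 := by
    refine IsHomogeneous.sum _ _ _ fun j _ => ?_
    have h4 := (isHomogeneous_C (Fin (N + 1)) (c j)).mul (isHomogeneous_X ℂ j)
    simpa using h4
  have heval : ∀ z, eval (f z).rep (∑ j, C (c j) * X j : MvPolynomial (Fin (N + 1)) ℂ) =
      ∑ j, c j * (f z).rep j := by
    intro z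
    simp
  have h5 : ∀ z, ∑ j, c j * (f z).rep j = 0 := by
    rcases form_zero_or hf hform with h6 | h6
    · intro z
      rw [← heval]
      exact h6 z
    · exfalso
      obtain ⟨z, hz1, hz2⟩ := (h6.and h2).exists
      rw [heval] at hz1
      exact hz1 hz2
  intro j
  exact congrFun (hnd c h5) j

theorem wr_yv_ne {f : ℂ → ℙ ℂ (Fin (N + 1) → ℂ)} (hf : HolMap f) (hnd : NonDeg f)
    {l : Fin (N + 1)} {z0 : ℂ} (hl0 : (f z0).rep l ≠ 0) : wr MDer (yv hf l) ≠ 0 :=
  wr_ne (fun _ hx => MD_zero hx) _ (yv_indep hf hnd hl0)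

/-- the inflection points are isolated -/
theorem not_infl {f : ℂ → ℙ ℂ (Fin (N + 1) → ℂ)} (hf : HolMap f) (hnd : NonDeg f) :
    ∀ᶠ z in codiscrete ℂ, ¬ Inflection f z := by
  obtain ⟨l, hl0⟩ := Function.ne_iff.1 (f 0).rep_nonzero
  have hl : (f 0).rep l ≠ 0 := hl0
  obtain ⟨h, h1⟩ := wr_cl hf l
  have h2 := wr_yv_ne hf hnd hl
  rw [h1] at h2
  filter_upwards [mero_ne h fun h3 => h2 (cl_eq_zero.2 h3), rep_codis hf hl] with z h3 h4
  rw [infl_iff hf h4]
  exact h3

end Pool.Agent.E8helper90.RM
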